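import Mathlib
import Pool.Agent.V11215.GH
import Pool.Agent.V11215.Circle

/-!
MP_124474_gt, Q1 (negated form, with the sharp constant): for a nonempty subset `X` of the circle of
length `2π` with `d_H(X, S¹) ≤ π/3` one has `d_GH(X, S¹) = d_H(X, S¹)`, and the constant `π/3` is
optimal.
-/

set_option autoImplicit false

namespace Pool.Agent.Results.MP_124474_gt.SharpThreshold

open Set Metric
open Pool.Agent.V11215.GH Pool.Agent.V11215.Circle
open scoped ENNReal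

/-! ### The equality below the threshold -/

theorem ghDist_le_hausdorff (X : Set S1) : ghDist X S1 ≤ hausdorffEDist X univ := by
  have h := ghDist_le_of_isometry (X := X) (Y := S1) (φ := ((↑) : X → S1)) (ψ := id)
    isometry_subtype_coe isometry_id
  rwa [Subtype.range_coe, range_id] at h

theorem hausdorff_le_of_lt (X : Set S1) {r : ℝ} (hr : 0 < r) (hr3 : r < Real.pi / 3)
    (h : ghDist X S1 < ENNReal.ofReal r) : hausdorffEDist X univ ≤ ENNReal.ofReal r := by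
  obtain ⟨R, _, hR2, hR3⟩ := exists_rel_of_ghDist_lt h
  choose g hg using hR2
  have hf : ∀ p q : S1, |dist ((g p : X) : S1) (g q) - dist p q| ≤ 2 * r := by
    intro p q
    exact (hR3 _ _ _ _ (hg p) (hg q)).le
  have hpi := Real.pi_pos
  refine ENNReal.le_of_forall_pos_le_add ?_
  intro ε hε _
  have hε' : (0 : ℝ) < ε := by exact_mod_cast hε
  -- choose `N` large
  obtain ⟨N, hN⟩ := exists_nat_gt (max (Real.pi / ε) (3 * Real.pi / (2 * Real.pi - 6 * r)))
  have hN1 : Real.pi / ε < N := lt_of_le_of_lt (le_max_left _ _) hN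
  have hN2 : 3 * Real.pi / (2 * Real.pi - 6 * r) < N := lt_of_le_of_lt (le_max_right _ _) hN
  have hNpos : (0 : ℝ) < N := lt_trans (by positivity) hN1
  have hN0 : 0 < N := by exact_mod_cast hNpos
  have h1 : Real.pi / N < ε := by
    rw [div_lt_iff₀ hNpos]
    rw [div_lt_iff₀ hε'] at hN1
    linarith
  have h2 : 3 * (2 * r + Real.pi / N) < 2 * Real.pi := by
    rw [div_lt_iff₀ (by linarith)] at hN2
    have h3 : 3 * Real.pi / N < 2 * Real.pi - 6 * r := by
      rw [div_lt_iff₀ hNpos]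
      linarith
    have h4 : 3 * (Real.pi / N) = 3 * Real.pi / N := by ring
    linarith
  have key := coarse_surj (fun q => ((g q : X) : S1)) (2 * r) (by linarith) hf N hN0 h2
  rw [← ENNReal.ofReal_coe_nnreal, ← ENNReal.ofReal_add hr.le hε'.le]
  apply hausdorffEDist_le_of_mem_edist
  · intro x hx
    refine ⟨x, mem_univ x, ?_⟩
    rw [edist_self]
    exact zero_le
  · intro p _
    obtain ⟨q, hq⟩ := key p
    refine ⟨_, (g q).2, ?_⟩
    rw [edist_dist]
    apply ENNReal.ofReal_le_ofReal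
    linarith

theorem eq_of_le (X : Set S1) (h : hausdorffEDist X univ ≤ ENNReal.ofReal (Real.pi / 3)) :
    ghDist X S1 = hausdorffEDist X univ := by
  apply le_antisymm (ghDist_le_hausdorff X)
  by_contra hcon
  push Not at hcon
  have hpi := Real.pi_pos
  obtain ⟨r, hr1, hr2⟩ := ENNReal.lt_iff_exists_nnreal_btwn.1 hcon
  have hr0 : (0 : ℝ) < r := by
    have : (0 : ℝ≥0∞) < r := lt_of_le_of_lt zero_le hr1
    exact_mod_cast this
  have hr3 : (r : ℝ) < Real.pi / 3 := by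
    have := lt_of_lt_of_le hr2 h
    rw [← ENNReal.ofReal_coe_nnreal] at this
    exact (ENNReal.ofReal_lt_ofReal_iff_of_nonneg r.2).1 this
  have := hausdorff_le_of_lt X hr0 hr3 (by rwa [ENNReal.ofReal_coe_nnreal])
  rw [ENNReal.ofReal_coe_nnreal] at this
  exact absurd hr2 (not_lt.2 this)

/-! ### The examples above the threshold -/

theorem dist_coe (u v : ℝ) : dist (u : S1) (v : S1) = ‖((u - v : ℝ) : S1)‖ := by
  rw [dist_eq_norm]
  rfl

theorem dist_cases (u v : ℝ) (h : |u - v| ≤ 2 * Real.pi) :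
    (dist (u : S1) (v : S1) = u - v ∧ 0 ≤ u - v ∧ u - v ≤ Real.pi) ∨
    (dist (u : S1) (v : S1) = v - u ∧ 0 ≤ v - u ∧ v - u ≤ Real.pi) ∨
    (dist (u : S1) (v : S1) = 2 * Real.pi - (u - v) ∧ Real.pi ≤ u - v) ∨
    (dist (u : S1) (v : S1) = 2 * Real.pi - (v - u) ∧ Real.pi ≤ v - u) := by
  rw [dist_coe]
  have hp : ((2 * Real.pi : ℝ) : S1) = 0 := by simp
  rw [abs_le] at h
  rcases le_total 0 (u - v) with h0 | h0
  · rcases le_total (u - v) Real.pi with h1 | h1
    · left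
      rw [norm_eq_abs (by rw [abs_of_nonneg h0]; exact h1), abs_of_nonneg h0]
      exact ⟨rfl, h0, h1⟩
    · right; right; left
      have e : ((u - v : ℝ) : S1) = ((u - v - 2 * Real.pi : ℝ) : S1) := by
        have : ((u - v - 2 * Real.pi : ℝ) : S1) = ((u - v : ℝ) : S1) - ((2 * Real.pi : ℝ) : S1) :=
          rfl
        rw [this, hp, sub_zero]
      have hle : u - v - 2 * Real.pi ≤ 0 := by linarith
      rw [e, norm_eq_abs (by rw [abs_of_nonpos hle]; linarith), abs_of_nonpos hle]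
      exact ⟨by ring, h1⟩
  · rcases le_total (v - u) Real.pi with h1 | h1
    · right; left
      rw [norm_eq_abs (by rw [abs_of_nonpos h0]; linarith), abs_of_nonpos h0]
      exact ⟨by ring, by linarith, h1⟩
    · right; right; right
      have e : ((u - v : ℝ) : S1) = ((u - v + 2 * Real.pi : ℝ) : S1) := by
        have : ((u - v + 2 * Real.pi : ℝ) : S1) = ((u - v : ℝ) : S1) + ((2 * Real.pi : ℝ) : S1) :=
          rfl
        rw [this, hp, add_zero]
      have hle : 0 ≤ u - v + 2 * Real.pi := by linarith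
      rw [e, norm_eq_abs (by rw [abs_of_nonneg hle]; linarith), abs_of_nonneg hle]
      exact ⟨by ring, h1⟩

/-- The map `[-π, π] → S¹` defining the correspondence. -/
noncomputable def F (e θ : ℝ) : ℝ :=
  if θ = Real.pi / 2 then -(2 * Real.pi / 3 - e)
  else if θ = -(Real.pi / 2) then 2 * Real.pi / 3 - e
  else if 2 * Real.pi / 3 ≤ |θ| then 0
  else if 0 ≤ θ then -(Real.pi / 3) else Real.pi / 3

theorem F_cases (e θ : ℝ) :
    (F e θ = -(2 * Real.pi / 3 - e) ∧ θ = Real.pi / 2) ∨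
    (F e θ = 2 * Real.pi / 3 - e ∧ θ = -(Real.pi / 2)) ∨
    (F e θ = 0 ∧ 2 * Real.pi / 3 ≤ θ) ∨ (F e θ = 0 ∧ θ ≤ -(2 * Real.pi / 3)) ∨
    (F e θ = -(Real.pi / 3) ∧ 0 ≤ θ ∧ θ ≤ 2 * Real.pi / 3) ∨
    (F e θ = Real.pi / 3 ∧ θ ≤ 0 ∧ -(2 * Real.pi / 3) ≤ θ) := by
  unfold F
  split_ifs with h1 h2 h3 h4
  · left; exact ⟨rfl, h1⟩
  · right; left; exact ⟨rfl, h2⟩
  · rcases le_abs.1 h3 with h | h
    · right; right; left; exact ⟨rfl, h⟩
    · right; right; right; left; exact ⟨rfl, by linarith⟩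
  · push Not at h3
    right; right; right; right; left
    exact ⟨rfl, h4, (le_of_abs_le h3.le)⟩
  · push Not at h3 h4
    right; right; right; right; right
    have := neg_le_of_abs_le h3.le
    exact ⟨rfl, h4.le, by linarith⟩

theorem F_abs_le {e : ℝ} (he0 : 0 < e) (he : e ≤ Real.pi / 12) (θ : ℝ) : |F e θ| ≤ Real.pi := by
  have hpi := Real.pi_pos
  rw [abs_le]
  rcases F_cases e θ with ⟨h, _⟩ | ⟨h, _⟩ | ⟨h, _⟩ | ⟨h, _⟩ | ⟨h, _⟩ | ⟨h, _⟩ <;> rw [h] <;>
    constructor <;> linarith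

theorem F_dist {e : ℝ} (he0 : 0 < e) (he : e ≤ Real.pi / 12) {θ θ' : ℝ} (h1 : |θ| ≤ Real.pi)
    (h2 : |θ'| ≤ Real.pi) :
    |dist ((F e θ : ℝ) : S1) ((F e θ' : ℝ) : S1) - dist (θ : S1) (θ' : S1)| ≤
      2 * (Real.pi / 3) := by
  have hpi := Real.pi_pos
  have a1 := dist_cases (F e θ) (F e θ') (by
    have := F_abs_le he0 he θ
    have := F_abs_le he0 he θ'
    refine (abs_sub _ _).trans ?_
    linarith)
  have a2 := dist_cases θ θ' (by
    refine (abs_sub _ _).trans ?_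
    linarith)
  have hd0 : 0 ≤ dist (θ : S1) (θ' : S1) := dist_nonneg
  have hd1 : dist (θ : S1) (θ' : S1) ≤ Real.pi := by
    rw [dist_eq_norm]
    exact norm_le_pi _
  generalize dist ((F e θ : ℝ) : S1) ((F e θ' : ℝ) : S1) = g at *
  generalize dist (θ : S1) (θ' : S1) = d at *
  rw [abs_le] at h1 h2 ⊢
  obtain ⟨h1a, h1b⟩ := h1
  obtain ⟨h2a, h2b⟩ := h2
  rcases F_cases e θ with ⟨h, k⟩ | ⟨h, k⟩ | ⟨h, k⟩ | ⟨h, k⟩ | ⟨h, k, k'⟩ | ⟨h, k, k'⟩ <;>
    rcases F_cases e θ' with ⟨j, l⟩ | ⟨j, l⟩ | ⟨j, l⟩ | ⟨j, l⟩ | ⟨j, l, l'⟩ | ⟨j, l, l'⟩ <;>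
    rw [h, j] at a1 <;>
    rcases a1 with ⟨b1, b2, b3⟩ | ⟨b1, b2, b3⟩ | ⟨b1, b2⟩ | ⟨b1, b2⟩ <;>
    (first
      | (exfalso; linarith only [hpi, he0, he, b2])
      | (exfalso; linarith only [hpi, he0, he, b3])
      | exact ⟨by linarith only [hpi, he0, he, hd0, hd1, b1],
          by linarith only [hpi, he0, he, hd0, hd1, b1]⟩
      | (rcases a2 with ⟨c1, c2, c3⟩ | ⟨c1, c2, c3⟩ | ⟨c1, c2⟩ | ⟨c1, c2⟩ <;>
          constructor <;> linarith))

/-- The subset of the circle above the threshold: the five points `0`, `±π/3`, `±(2π/3 - e)`. -/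
def X (e : ℝ) : Set S1 := (fun θ : ℝ => ((F e θ : ℝ) : S1)) '' Icc (-Real.pi) Real.pi

theorem mem_X (e θ : ℝ) (h : |θ| ≤ Real.pi) : ((F e θ : ℝ) : S1) ∈ X e :=
  ⟨θ, abs_le.1 h, rfl⟩

theorem ghDist_X_le {e : ℝ} (he0 : 0 < e) (he : e ≤ Real.pi / 12) :
    ghDist (X e) S1 ≤ ENNReal.ofReal (Real.pi / 3) := by
  have hpi := Real.pi_pos
  have : Nonempty (X e) := ⟨⟨_, mem_X e 0 (by simpa using hpi.le)⟩⟩
  refine ghDist_le (fun (x : X e) (q : S1) => ∃ θ : ℝ, |θ| ≤ Real.pi ∧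
    ((F e θ : ℝ) : S1) = x ∧ (θ : S1) = q) ?_ ?_ (Real.pi / 3) (by positivity) ?_
  · rintro ⟨_, θ, hθ, rfl⟩
    exact ⟨θ, θ, abs_le.2 hθ, rfl, rfl⟩
  · intro q
    obtain ⟨θ, h1, h2⟩ := exists_rep q
    have h3 : |θ| ≤ Real.pi := h2.trans_le (norm_le_pi q)
    exact ⟨⟨_, mem_X e θ h3⟩, θ, h3, rfl, h1⟩
  · rintro x q x' q' ⟨θ, h1, h2, h3⟩ ⟨θ', h1', h2', h3'⟩
    rw [Subtype.dist_eq, ← h2, ← h2', ← h3, ← h3']
    exact F_dist he0 he h1 h1'

theorem F_vals {e : ℝ} : F e Real.pi = 0 ∧ F e 0 = -(Real.pi / 3) ∧ F e (-(Real.pi / 3)) =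
    Real.pi / 3 ∧ F e (Real.pi / 2) = -(2 * Real.pi / 3 - e) ∧
    F e (-(Real.pi / 2)) = 2 * Real.pi / 3 - e := by
  have hpi := Real.pi_pos
  refine ⟨?_, ?_, ?_, ?_, ?_⟩
  · rcases F_cases e Real.pi with ⟨h, k⟩ | ⟨h, k⟩ | ⟨h, k⟩ | ⟨h, k⟩ | ⟨h, k, k'⟩ | ⟨h, k, k'⟩ <;>
      first | exact h | linarith
  · rcases F_cases e 0 with ⟨h, k⟩ | ⟨h, k⟩ | ⟨h, k⟩ | ⟨h, k⟩ | ⟨h, k, k'⟩ | ⟨h, k, k'⟩ <;>
      first | exact h | skip
    all_goals first | (exfalso; linarith) | skip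
    unfold F
    rw [if_neg (by intro h; linarith), if_neg (by intro h; linarith),
      if_neg (by rw [abs_zero]; intro h; linarith), if_pos le_rfl]
  · unfold F
    rw [if_neg (by intro h; linarith), if_neg (by intro h; linarith),
      if_neg (by rw [abs_neg, abs_of_pos (by positivity)]; intro h; linarith),
      if_neg (by intro h; linarith)]
  · unfold F
    rw [if_pos rfl]
  · unfold F
    rw [if_neg (by intro h; linarith), if_pos rfl]

theorem hausdorff_X_le {e : ℝ} (he0 : 0 < e) (he : e ≤ Real.pi / 12) :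
    hausdorffEDist (X e) univ ≤ ENNReal.ofReal (Real.pi / 3 + e) := by
  have hpi := Real.pi_pos
  obtain ⟨f1, f2, f3, f4, f5⟩ := F_vals (e := e)
  have m1 : ((0 : ℝ) : S1) ∈ X e := by
    rw [← f1]
    exact mem_X e _ (by rw [abs_of_pos hpi])
  have m2 : ((-(Real.pi / 3) : ℝ) : S1) ∈ X e := by
    rw [← f2]
    exact mem_X e _ (by simpa using hpi.le)
  have m3 : ((Real.pi / 3 : ℝ) : S1) ∈ X e := by
    rw [← f3]
    exact mem_X e _ (by rw [abs_neg, abs_of_pos (by positivity)]; linarith)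
  have m4 : ((-(2 * Real.pi / 3 - e) : ℝ) : S1) ∈ X e := by
    rw [← f4]
    exact mem_X e _ (by rw [abs_of_pos (by positivity)]; linarith)
  have m5 : ((2 * Real.pi / 3 - e : ℝ) : S1) ∈ X e := by
    rw [← f5]
    exact mem_X e _ (by rw [abs_neg, abs_of_pos (by positivity)]; linarith)
  have near : ∀ (θ u : ℝ), ((u : ℝ) : S1) ∈ X e → |θ - u| ≤ Real.pi / 3 + e →
      ∃ y ∈ X e, edist (θ : S1) y ≤ ENNReal.ofReal (Real.pi / 3 + e) := by
    intro θ u hu h
    refine ⟨_, hu, ?_⟩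
    rw [edist_dist]
    apply ENNReal.ofReal_le_ofReal
    rw [dist_coe]
    exact (norm_le_abs _).trans h
  apply hausdorffEDist_le_of_mem_edist
  · intro x hx
    refine ⟨x, mem_univ x, ?_⟩
    rw [edist_self]
    exact zero_le
  · intro p _
    obtain ⟨θ, rfl, h2⟩ := exists_rep p
    have h3 : |θ| ≤ Real.pi := h2.trans_le (norm_le_pi _)
    rw [abs_le] at h3
    rcases le_total 0 θ with h0 | h0
    · rcases le_total θ (Real.pi / 3) with h1 | h1
      · exact near θ 0 m1 (by rw [abs_le]; constructor <;> linarith)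
      · rcases le_total θ (2 * Real.pi / 3) with h4 | h4
        · exact near θ _ m3 (by rw [abs_le]; constructor <;> linarith)
        · exact near θ _ m5 (by rw [abs_le]; constructor <;> linarith)
    · rcases le_total (-(Real.pi / 3)) θ with h1 | h1
      · exact near θ 0 m1 (by rw [abs_le]; constructor <;> linarith)
      · rcases le_total (-(2 * Real.pi / 3)) θ with h4 | h4
        · exact near θ _ m2 (by rw [abs_le]; constructor <;> linarith)
        · exact near θ _ m4 (by rw [abs_le]; constructor <;> linarith)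

theorem le_hausdorff_X {e : ℝ} (he0 : 0 < e) (he : e ≤ Real.pi / 12) :
    ENNReal.ofReal (Real.pi / 3 + e) ≤ hausdorffEDist (X e) univ := by
  have hpi := Real.pi_pos
  have h1 : infEDist ((Real.pi : ℝ) : S1) (X e) ≤ hausdorffEDist univ (X e) :=
    infEDist_le_hausdorffEDist_of_mem (mem_univ _)
  rw [hausdorffEDist_comm]
  refine le_trans ?_ h1
  rw [le_infEDist]
  rintro _ ⟨θ, _, rfl⟩
  rw [edist_dist]
  apply ENNReal.ofReal_le_ofReal
  have := F_abs_le he0 he θ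
  rw [abs_le] at this
  rcases dist_cases Real.pi (F e θ) (by rw [abs_le]; constructor <;> linarith) with
    ⟨b1, b2, b3⟩ | ⟨b1, b2, b3⟩ | ⟨b1, b2⟩ | ⟨b1, b2⟩ <;> rw [b1] <;>
    rcases F_cases e θ with ⟨h, k⟩ | ⟨h, k⟩ | ⟨h, k⟩ | ⟨h, k⟩ | ⟨h, k, k'⟩ | ⟨h, k, k'⟩ <;>
    linarith

/-- For every nonempty subset `X` of the circle of length `2π` with `d_H(X, S¹) ≤ π/3` one has
`d_GH(X, S¹) = d_H(X, S¹)`; and the constant `π/3` is optimal: for every `ε > 0` there is a nonempty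
`X ⊆ S¹` with `d_H(X, S¹) < π/3 + ε` and `d_GH(X, S¹) < d_H(X, S¹)`. -/
theorem result :
    (∀ X : Set S1, X.Nonempty → hausdorffEDist X univ ≤ ENNReal.ofReal (Real.pi / 3) →
      ghDist X S1 = hausdorffEDist X univ) ∧
    (∀ ε : ℝ, 0 < ε → ∃ X : Set S1, X.Nonempty ∧
      hausdorffEDist X univ < ENNReal.ofReal (Real.pi / 3 + ε) ∧
      ghDist X S1 < hausdorffEDist X univ) := by
  refine ⟨fun X _ h => eq_of_le X h, ?_⟩
  intro ε hε
  have hpi := Real.pi_pos
  have he0 : 0 < min (ε / 2) (Real.pi / 12) := lt_min (by positivity) (by positivity)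
  have he : min (ε / 2) (Real.pi / 12) ≤ Real.pi / 12 := min_le_right _ _
  have he' : min (ε / 2) (Real.pi / 12) ≤ ε / 2 := min_le_left _ _
  refine ⟨X (min (ε / 2) (Real.pi / 12)), ⟨_, mem_X _ 0 (by simpa using hpi.le)⟩, ?_, ?_⟩
  · refine (hausdorff_X_le he0 he).trans_lt ?_
    rw [ENNReal.ofReal_lt_ofReal_iff (by positivity)]
    linarith
  · refine lt_of_lt_of_le ?_ (le_hausdorff_X he0 he)
    refine lt_of_le_of_lt (ghDist_X_le he0 he) ?_
    rw [ENNReal.ofReal_lt_ofReal_iff (by positivity)]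
    linarith

end Pool.Agent.Results.MP_124474_gt.SharpThreshold
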